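import Pool.Agent.P.MP_0f9430_co.Split

open Pool.Agent.P.MP_0f9430_co in
/-- A split graph on eleven vertices that is a proper max-tolerance graph and not a unit
max-tolerance graph. -/
theorem Pool.Agent.Results.MP_0f9430_co.ProperNotUnit.result :
    ∃ G : SimpleGraph (Fin 11), (∃ K : Set (Fin 11), G.IsClique K ∧ G.IsIndepSet Kᶜ) ∧
      ProperMax G ∧ ¬ UnitMax G :=
  ⟨spG, ⟨_, spG_split⟩, spG_proper, spG_not_unit⟩
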