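import Pool.Agent.P.MP_0f9430_co.Laminar

open Pool.Agent.P.MP_0f9430_co in
/-- Every finite intersection graph of convex chains in a tree order (rooted directed path graphs,
in particular interval graphs, trees and block graphs) is a unit max-tolerance graph. -/
theorem Pool.Agent.Results.MP_0f9430_co.RootedPaths.result (V : Type) [Finite V]
    (G : SimpleGraph V) (N : Type) [PartialOrder N]
    (hN : ∀ a b c : N, a ≤ c → b ≤ c → a ≤ b ∨ b ≤ a) (P : V → Set N)
    (hc : ∀ v, IsChain (· ≤ ·) (P v)) (ho : ∀ v, (P v).OrdConnected)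
    (h : ∀ u v, u ≠ v → (G.Adj u v ↔ (P u ∩ P v).Nonempty)) : UnitMax G :=
  unitMax_of_tree hN P hc ho h
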