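import Pool.Agent.P.MP_0f9430_co.Sum

open Pool.Agent.P.MP_0f9430_co in
/-- Every finite proper (or unit) sum-tolerance graph is a unit max-tolerance graph. -/
theorem Pool.Agent.Results.MP_0f9430_co.SumTolerance.result (V : Type) [Finite V]
    (G : SimpleGraph V) (ρ : Rep V) (h : ρ.IsSum G) (hp : ∀ u v, ¬ ρ.I u ⊂ ρ.I v) : UnitMax G :=
  unitMax_of_sum ρ h hp
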